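import Mathlib
import Pool.Agent.Y969.GP.Def
import Pool.Agent.H307R2.LU
import Pool.Agent.H52R4.PZT1

/-!
Pointwise bounds for the zeta function.
-/

set_option autoImplicit false

open Complex Filter Topology MeasureTheory Set

namespace Pool.Agent.Y79.GP

theorem zp1 (η : ℝ) (h0 : 0 < η) (h1 : η ≤ 1 / 8) : ∃ C : ℝ, 0 < C ∧ ∀ s : ℂ,
    1 - 2 * η ≤ s.re → 1 ≤ |s.im| → ‖riemannZeta s‖ ≤ C * |s.im| ^ (3 * η) := by
  refine ⟨6 + 1 / η, by positivity, fun s hs ht => ?_⟩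
  set τ := |s.im| with hτ
  have hσ : 3 / 4 ≤ s.re := by linarith
  have hσ0 : 0 < s.re := by linarith
  have hτ0 : 0 < τ := by linarith
  have hs1 : s ≠ 1 := by
    intro h
    rw [h] at hτ
    simp only [one_im, abs_zero] at hτ
    linarith
  set N : ℕ := ⌊τ⌋₊ with hN
  have hN1 : 1 ≤ N := by
    rw [hN]
    exact (Nat.one_le_floor_iff _).2 ht
  have hNr : (1 : ℝ) ≤ N := by exact_mod_cast hN1
  have hN0 : (0 : ℝ) < N := by linarith
  have hNτ : (N : ℝ) ≤ τ := Nat.floor_le hτ0.le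
  have hτN : τ ≤ 2 * N := by
    have := (Nat.lt_floor_add_one τ).le
    rw [← hN] at this
    linarith
  rw [Pool.Agent.H307R2.zeta_eq hN1 hσ0 hs1]
  have hp : (N : ℝ) ^ (2 * η) ≤ τ ^ (2 * η) := Real.rpow_le_rpow hN0.le hNτ (by positivity)
  have hp3 : τ ^ (2 * η) ≤ τ ^ (3 * η) := Real.rpow_le_rpow_of_exponent_le ht (by linarith)
  have hone : 1 ≤ τ ^ (3 * η) := Real.one_le_rpow ht (by positivity)
  have hA : ‖∑ n ∈ Finset.Icc 1 N, (n : ℂ) ^ (-s)‖ ≤ (1 + 1 / η) * τ ^ (3 * η) := by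
    have a1 : ‖∑ n ∈ Finset.Icc 1 N, (n : ℂ) ^ (-s)‖ ≤
        ∑ n ∈ Finset.Icc 1 N, (N : ℝ) ^ (2 * η) * (n : ℝ)⁻¹ := by
      refine norm_sum_le_of_le _ fun n hn => ?_
      rw [Finset.mem_Icc] at hn
      have hn1 : (1 : ℝ) ≤ n := by exact_mod_cast hn.1
      have hn0 : (0 : ℝ) < n := by linarith
      have hnN : (n : ℝ) ≤ N := by exact_mod_cast hn.2
      rw [Complex.norm_natCast_cpow_of_pos (by omega), Complex.neg_re]
      have e : -s.re = (1 - s.re) + (-1) := by ring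
      rw [e, Real.rpow_add hn0, Real.rpow_neg_one]
      refine mul_le_mul_of_nonneg_right ?_ (by positivity)
      calc (n : ℝ) ^ (1 - s.re) ≤ (n : ℝ) ^ (2 * η) :=
            Real.rpow_le_rpow_of_exponent_le hn1 (by linarith)
        _ ≤ (N : ℝ) ^ (2 * η) := Real.rpow_le_rpow hn0.le hnN (by positivity)
    have a2 : ∑ n ∈ Finset.Icc 1 N, (n : ℝ)⁻¹ ≤ 1 + Real.log N := by
      have h5 := harmonic_le_one_add_log N
      have h6 : ((harmonic N : ℚ) : ℝ) = ∑ n ∈ Finset.Icc 1 N, ((n : ℝ))⁻¹ := by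
        rw [harmonic_eq_sum_Icc]
        push_cast
        rfl
      rw [← h6]
      exact h5
    rw [← Finset.mul_sum] at a1
    have a3 : Real.log N ≤ τ ^ η / η :=
      (Real.log_le_log hN0 hNτ).trans (Real.log_le_rpow_div hτ0.le h0)
    have a4 : τ ^ (2 * η) * τ ^ η = τ ^ (3 * η) := by
      rw [← Real.rpow_add hτ0]
      congr 1
      ring
    calc ‖∑ n ∈ Finset.Icc 1 N, (n : ℂ) ^ (-s)‖
        ≤ (N : ℝ) ^ (2 * η) * ∑ n ∈ Finset.Icc 1 N, (n : ℝ)⁻¹ := a1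
      _ ≤ τ ^ (2 * η) * (1 + τ ^ η / η) := by
        refine mul_le_mul hp (a2.trans (by linarith)) ?_ (by positivity)
        exact Finset.sum_nonneg fun n _ => by positivity
      _ = τ ^ (2 * η) + (τ ^ (2 * η) * τ ^ η) / η := by ring
      _ = τ ^ (2 * η) + τ ^ (3 * η) / η := by rw [a4]
      _ ≤ τ ^ (3 * η) + τ ^ (3 * η) / η := by linarith
      _ = (1 + 1 / η) * τ ^ (3 * η) := by ring
  have hB : ‖(N : ℂ) ^ (1 - s) / (s - 1)‖ ≤ τ ^ (3 * η) := by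
    rw [norm_div, Complex.norm_natCast_cpow_of_pos (by omega)]
    have b1 : 1 ≤ ‖s - 1‖ := by
      have := Complex.abs_im_le_norm (s - 1)
      simp only [sub_im, one_im, sub_zero] at this
      exact ht.trans this
    have b2 : (1 - s).re = 1 - s.re := by simp
    rw [b2, div_le_iff₀ (by linarith)]
    have b3 : (N : ℝ) ^ (1 - s.re) ≤ (N : ℝ) ^ (2 * η) :=
      Real.rpow_le_rpow_of_exponent_le hNr (by linarith)
    have b4 : τ ^ (3 * η) * 1 ≤ τ ^ (3 * η) * ‖s - 1‖ := by gcongr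
    linarith
  have hC : ‖s * Pool.Agent.H307R2.TM N Pool.Agent.H307R2.Ez s‖ ≤ 4 * τ ^ (3 * η) := by
    rw [norm_mul]
    have c1 := Pool.Agent.H307R2.TM_norm_le hN1 Pool.Agent.H307R2.Ez_norm_le hσ0
    rw [one_mul] at c1
    have c2 : ‖s‖ ≤ s.re + τ := by
      have := Complex.norm_le_abs_re_add_abs_im s
      rwa [abs_of_pos hσ0] at this
    have c3 : (N : ℝ) ^ (-s.re) ≤ (N : ℝ) ^ (2 * η) / N := by
      rw [← Real.rpow_sub_one hN0.ne']
      exact Real.rpow_le_rpow_of_exponent_le hNr (by linarith)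
    have c4 : (s.re + τ) / s.re ≤ 4 * N := by
      rw [div_le_iff₀ hσ0]
      nlinarith
    have c5 : 0 ≤ (N : ℝ) ^ (-s.re) := by positivity
    calc ‖s‖ * ‖Pool.Agent.H307R2.TM N Pool.Agent.H307R2.Ez s‖
        ≤ (s.re + τ) * ((N : ℝ) ^ (-s.re) / s.re) :=
          mul_le_mul c2 c1 (norm_nonneg _) (by positivity)
      _ = ((s.re + τ) / s.re) * (N : ℝ) ^ (-s.re) := by ring
      _ ≤ (4 * N) * ((N : ℝ) ^ (2 * η) / N) := mul_le_mul c4 c3 c5 (by positivity)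
      _ = 4 * (N : ℝ) ^ (2 * η) := by field_simp
      _ ≤ 4 * τ ^ (3 * η) := by linarith
  calc ‖∑ n ∈ Finset.Icc 1 N, (n : ℂ) ^ (-s) + (N : ℂ) ^ (1 - s) / (s - 1) +
        s * Pool.Agent.H307R2.TM N Pool.Agent.H307R2.Ez s‖
      ≤ (1 + 1 / η) * τ ^ (3 * η) + τ ^ (3 * η) + 4 * τ ^ (3 * η) :=
        (norm_add_le _ _).trans (add_le_add ((norm_add_le _ _).trans (add_le_add hA hB)) hC)
    _ = (6 + 1 / η) * τ ^ (3 * η) := by ring

theorem zp2 : ∃ C : ℝ, 0 < C ∧ ∀ s : ℂ, -1 / 2 ≤ s.re → s.re ≤ 1 →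
    ‖s * riemannZeta (1 + 2 * s)‖ ≤ C * (1 + |s.im|) ^ 4 := by
  obtain ⟨C1, hC1, h1⟩ := Pool.Agent.H52R4.PZT1.zeta_strip
  obtain ⟨C2, hC2, h2⟩ := zp1 (1 / 8) (by norm_num) le_rfl
  -- the compact part
  have hcont : Continuous fun s : ℂ => riemannZeta₁ (1 + 2 * s) / 2 :=
    (differentiable_riemannZeta₁.continuous.comp (by fun_prop)).div_const 2
  have hK : IsCompact ((Icc (-1 / 2 : ℝ) 1) ×ℂ (Icc (-1 / 2 : ℝ) (1 / 2))) :=
    isCompact_Icc.reProdIm isCompact_Icc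
  obtain ⟨C3, hC3⟩ := hK.exists_bound_of_continuousOn hcont.continuousOn
  have hC30 : 0 ≤ C3 := (norm_nonneg _).trans (hC3 0 (by
    rw [mem_reProdIm]
    simp only [zero_re, zero_im, mem_Icc]
    norm_num))
  refine ⟨4 * C1 + 4 * C2 + C3, by positivity, fun s hs1 hs2 => ?_⟩
  have hpos : (0 : ℝ) ≤ |s.im| := abs_nonneg _
  have hz : (1 + 2 * s).im = 2 * s.im := by simp
  have hzr : (1 + 2 * s).re = 1 + 2 * s.re := by simp
  have hzabs : |(1 + 2 * s).im| = 2 * |s.im| := by rw [hz, abs_mul]; norm_num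
  have hsn : ‖s‖ ≤ 1 + |s.im| := by
    have := Complex.norm_le_abs_re_add_abs_im s
    have h3 : |s.re| ≤ 1 := abs_le.2 ⟨by linarith, hs2⟩
    linarith
  by_cases him : 1 ≤ |(1 + 2 * s).im|
  · have hu : (1 : ℝ) ≤ 1 + |s.im| := by linarith
    have hζ : ‖riemannZeta (1 + 2 * s)‖ ≤ (4 * C1 + 4 * C2) * (1 + |s.im|) ^ 3 := by
      have hu3 : (1 + |s.im|) ^ 2 ≤ (1 + |s.im|) ^ 3 := pow_le_pow_right₀ hu (by norm_num)
      by_cases hre : (1 + 2 * s).re ≤ 2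
      · have := h1 (1 + 2 * s) (by rw [hzr]; linarith) hre him
        rw [hzabs] at this
        have h5 : (2 * |s.im|) ^ 2 ≤ 4 * (1 + |s.im|) ^ 2 := by nlinarith
        calc ‖riemannZeta (1 + 2 * s)‖ ≤ C1 * (2 * |s.im|) ^ 2 := this
          _ ≤ C1 * (4 * (1 + |s.im|) ^ 3) := by gcongr; linarith
          _ ≤ (4 * C1 + 4 * C2) * (1 + |s.im|) ^ 3 := by
            have : 0 ≤ C2 * (1 + |s.im|) ^ 3 := by positivity
            nlinarith
      · have := h2 (1 + 2 * s) (by linarith) him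
        rw [hzabs] at this
        rw [hzabs] at him
        have h5 : (2 * |s.im|) ^ (3 * (1 / 8) : ℝ) ≤ 2 * |s.im| := by
          calc (2 * |s.im|) ^ (3 * (1 / 8) : ℝ) ≤ (2 * |s.im|) ^ (1 : ℝ) :=
                Real.rpow_le_rpow_of_exponent_le him (by norm_num)
            _ = 2 * |s.im| := Real.rpow_one _
        have h6 : 1 + |s.im| ≤ (1 + |s.im|) ^ 3 := le_self_pow₀ hu (by norm_num)
        calc ‖riemannZeta (1 + 2 * s)‖ ≤ C2 * (2 * |s.im|) ^ (3 * (1 / 8) : ℝ) := this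
          _ ≤ C2 * (4 * (1 + |s.im|) ^ 3) := by gcongr; linarith
          _ ≤ (4 * C1 + 4 * C2) * (1 + |s.im|) ^ 3 := by
            have : 0 ≤ C1 * (1 + |s.im|) ^ 3 := by positivity
            nlinarith
    rw [norm_mul]
    calc ‖s‖ * ‖riemannZeta (1 + 2 * s)‖
        ≤ (1 + |s.im|) * ((4 * C1 + 4 * C2) * (1 + |s.im|) ^ 3) :=
          mul_le_mul hsn hζ (norm_nonneg _) (by positivity)
      _ = (4 * C1 + 4 * C2) * (1 + |s.im|) ^ 4 := by ring
      _ ≤ (4 * C1 + 4 * C2 + C3) * (1 + |s.im|) ^ 4 :=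
          mul_le_mul_of_nonneg_right (by linarith) (by positivity)
  · have h4 : (1 : ℝ) ≤ (1 + |s.im|) ^ 4 := one_le_pow₀ (by linarith)
    by_cases hs0 : s = 0
    · rw [hs0, zero_mul, norm_zero]
      positivity
    · have hne : (1 + 2 * s : ℂ) ≠ 1 := by
        intro h
        apply hs0
        have : (2 : ℂ) * s = 0 := by linear_combination h
        simpa using this
      have e : s * riemannZeta (1 + 2 * s) = riemannZeta₁ (1 + 2 * s) / 2 := by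
        rw [riemannZeta_eq_inv_sub_mul hne]
        field_simp
        ring_nf
      rw [e]
      rw [hzabs, not_le] at him
      have h5 : |s.im| ≤ 1 / 2 := by linarith
      have h6 := abs_le.1 h5
      have := hC3 s (by
        rw [mem_reProdIm]
        exact ⟨⟨hs1, hs2⟩, ⟨by linarith [h6.1], h6.2⟩⟩)
      calc ‖riemannZeta₁ (1 + 2 * s) / 2‖ ≤ C3 := this
        _ ≤ (4 * C1 + 4 * C2 + C3) * 1 := by linarith
        _ ≤ (4 * C1 + 4 * C2 + C3) * (1 + |s.im|) ^ 4 := by gcongr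

theorem t_ZP : Pool.Agent.Y969.GP.S_ZP := ⟨zp1, zp2⟩

end Pool.Agent.Y79.GP
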